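import Mathlib
import Pool.Agent.Helper87.FK.Hom

/-!
# The strengthened Foulkes conjecture for all partitions when the larger side is large
-/

set_option autoImplicit false

namespace Pool.Agent.Results.MP_e7aee3_al.AllPartitions

/-- set partitions of `{0, ..., N - 1}` into `b` blocks of size `s` -/
abbrev SetPart (N b s : ℕ) : Type :=
  {P : Finset (Finset (Fin N)) // P.card = b ∧ (∀ B ∈ P, B.card = s) ∧ ∀ x : Fin N, ∃! B, B ∈ P ∧ x ∈ B}

/-- the dimension of `Hom(W, C[set partitions into b blocks of size s])`: the linear maps `T` from `W` to the functions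
on these set partitions with `T(g w)(g P) = T(w)(P)` form a vector space, `homDim` is its dimension.  For `W` the Specht
module of `ν` this is the plethysm coefficient, the multiplicity of this module in the permutation module. -/
noncomputable def homDim {N : ℕ} {W : Type} [AddCommGroup W] [Module ℂ W]
    (ρ : Representation ℂ (Equiv.Perm (Fin N)) W) (b s : ℕ) : ℕ :=
  Set.finrank ℂ {T : W → SetPart N b s → ℂ | IsLinearMap ℂ T ∧
    ∀ (g : Equiv.Perm (Fin N)) (w : W) (P P' : SetPart N b s),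
      P'.1 = P.1.image (Finset.image g) → T (ρ g w) P' = T w P}

/-- `y` blocks can be reached from `x` blocks in one step -/
def Step (N x y : ℕ) : Prop :=
  x ∣ N ∧ y ∣ N ∧ x ^ 5 ≤ N / x ∧ ((x ∣ y ∧ x ^ 4 ≤ N / y) ∨ (x ∣ N / y ∧ x ^ 4 ≤ y))

/-- Let `m n = p q` and assume one of the following:
* `m ^ 5 ≤ n`, `m ∣ p` and `m ^ 4 ≤ q`;
* `m ^ 5 ≤ n`, `m ∣ q` and `m ^ 4 ≤ p`;
* `m ^ 5 ≤ p` and `p ^ 5 ≤ q`;
* `m ^ 5 ≤ q` and `q ^ 5 ≤ p`;
* there is a chain of divisors of `m n` from `m` to `p` in which a step from `x` to `y` is allowed if `x ^ 5 ≤ m n / x` and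
  either `x ∣ y` and `x ^ 4 ≤ m n / y`, or `x ∣ m n / y` and `x ^ 4 ≤ y`.
Then `dim Hom(W, C[m blocks of size n]) ≤ dim Hom(W, C[p blocks of size q])` for every finite-dimensional representation `W`
of the symmetric group of degree `m n`. -/
theorem result (m n p q : ℕ) (hm : 1 ≤ m) (hp : 1 ≤ p) (hq : 1 ≤ q) (h : m * n = p * q)
    (H : (m ^ 5 ≤ n ∧ m ∣ p ∧ m ^ 4 ≤ q) ∨ (m ^ 5 ≤ n ∧ m ∣ q ∧ m ^ 4 ≤ p) ∨ (m ^ 5 ≤ p ∧ p ^ 5 ≤ q) ∨
      (m ^ 5 ≤ q ∧ q ^ 5 ≤ p) ∨ Relation.ReflTransGen (Step (m * n)) m p)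
    (W : Type) [AddCommGroup W] [Module ℂ W] [FiniteDimensional ℂ W]
    (ρ : Representation ℂ (Equiv.Perm (Fin (m * n))) W) :
    homDim ρ m n ≤ homDim ρ p q :=
  Helper87.FK.all_partitions m n p q hm hp hq h H W ρ

end Pool.Agent.Results.MP_e7aee3_al.AllPartitions
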