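import Mathlib
import Pool.Agent.Helper87.FK.Hom

/-!
# The strengthened Foulkes conjecture for `m = 3`, for all partitions
-/

set_option autoImplicit false

namespace Pool.Agent.Results.MP_e7aee3_al.ThreeBlocks

/-- set partitions of `{0, ..., N - 1}` into `b` blocks of size `s` -/
abbrev SetPart (N b s : ℕ) : Type :=
  {P : Finset (Finset (Fin N)) // P.card = b ∧ (∀ B ∈ P, B.card = s) ∧ ∀ x : Fin N, ∃! B, B ∈ P ∧ x ∈ B}

/-- the dimension of `Hom(W, C[set partitions into b blocks of size s])`: the linear maps `T` from `W` to the functions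
on these set partitions with `T(g w)(g P) = T(w)(P)` form a vector space, `homDim` is its dimension.  For `W` the Specht
module of `ν` this is the plethysm coefficient, the multiplicity of this module in the permutation module. -/
noncomputable def homDim {N : ℕ} {W : Type} [AddCommGroup W] [Module ℂ W]
    (ρ : Representation ℂ (Equiv.Perm (Fin N)) W) (b s : ℕ) : ℕ :=
  Set.finrank ℂ {T : W → SetPart N b s → ℂ | IsLinearMap ℂ T ∧
    ∀ (g : Equiv.Perm (Fin N)) (w : W) (P P' : SetPart N b s),
      P'.1 = P.1.image (Finset.image g) → T (ρ g w) P' = T w P}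

/-- Let `3 n = p q` with `q ≥ 3` and `p` a positive multiple of `3` or `p ≥ 9`.  Then
`dim Hom(W, C[3 blocks of size n]) ≤ dim Hom(W, C[p blocks of size q])` for every finite-dimensional representation `W`
of the symmetric group of degree `3 n`. -/
theorem result (n p q : ℕ) (h : 3 * n = p * q) (hp : 1 ≤ p) (hq : 3 ≤ q) (hd : 3 ∣ p ∨ 9 ≤ p)
    (W : Type) [AddCommGroup W] [Module ℂ W] [FiniteDimensional ℂ W]
    (ρ : Representation ℂ (Equiv.Perm (Fin (3 * n))) W) :
    homDim ρ 3 n ≤ homDim ρ p q :=
  Helper87.FK.three_blocks n p q h hp hq hd W ρ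

end Pool.Agent.Results.MP_e7aee3_al.ThreeBlocks
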