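import Mathlib
import Pool.Agent.Helper87.FK.Chains

/-!
# The two-row case of the strengthened Foulkes conjecture along chains of divisors

`specMult N k m n` is the multiplicity of the Specht module of `(N - k, k)` in the permutation module of the
symmetric group on the set partitions of an `N`-element set into `m` blocks of size `n`.
-/

set_option autoImplicit false

namespace Pool.Agent.Results.MP_e7aee3_al.TwoRowChains

/-- `k`-element subsets of `{0, ..., N - 1}` -/
abbrev Sub (N k : ℕ) : Type := {s : Finset (Fin N) // s.card = k}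

/-- set partitions of `{0, ..., N - 1}` into `m` blocks of size `n` -/
abbrev SetPart (N m n : ℕ) : Type :=
  {P : Finset (Finset (Fin N)) // P.card = m ∧ (∀ B ∈ P, B.card = n) ∧ ∀ x : Fin N, ∃! B, B ∈ P ∧ x ∈ B}

/-- the Specht module of `(N - k, k)`: functions on the `k`-element subsets of `{0, ..., N - 1}` whose sum
over the sets containing `t` is zero for every set `t` of size `k - 1` -/
def Specht (N k : ℕ) : Set (Sub N k → ℂ) :=
  {f | ∀ t : Finset (Fin N), t.card + 1 = k → ∑ s : Sub N k, (if t ⊆ s.1 then f s else 0) = 0}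

/-- equivariant maps `P ↦ K P` from the set partitions of `{0, ..., N - 1}` into `m` blocks of size `n` to
the Specht module -/
def EqMaps (N k m n : ℕ) : Set (SetPart N m n → Sub N k → ℂ) :=
  {K | (∀ P, K P ∈ Specht N k) ∧
    ∀ (g : Equiv.Perm (Fin N)) (P P' : SetPart N m n) (s s' : Sub N k),
      P'.1 = P.1.image (Finset.image g) → s'.1 = s.1.image g → K P' s' = K P s}

/-- the multiplicity: the dimension of the space of equivariant maps -/
noncomputable def specMult (N k m n : ℕ) : ℕ := Set.finrank ℂ (EqMaps N k m n)

/-- One step between divisors of `N`: `a ≤ b ≤ √N`, `b` divides `N`, and `a` divides `b` or `N / b`. -/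
def Link (N a b : ℕ) : Prop := a ≤ b ∧ b * b ≤ N ∧ b ∣ N ∧ (a ∣ b ∨ a ∣ N / b)

/-- Let `m n = p q`, `1 ≤ m ≤ p`, `m ≤ q`, and let `m ∣ p`, or `m ∣ q`, or `m ^ 2 ≤ 2 min(p, q)`, or let there be
a chain `m = d_0, ..., d_r = min(p, q)` of divisors of `m n` with `d_i ≤ d_{i+1}` and `d_i` dividing `d_{i+1}` or
`m n / d_{i+1}`. For `2 k ≤ m n` the multiplicity of the Specht module of `(m n - k, k)` in the permutation module
on set partitions into `n` blocks of size `m` (into `m` blocks of size `n`) is at most its multiplicity in the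
permutation module on set partitions into `q` blocks of size `p` (into `p` blocks of size `q`). -/
theorem result (m n p q k : ℕ) (hm : 1 ≤ m) (h : m * n = p * q) (hp : m ≤ p) (hq : m ≤ q)
    (hd : m ∣ p ∨ m ∣ q ∨ m ^ 2 ≤ 2 * min p q ∨ Relation.ReflTransGen (Link (m * n)) m (min p q))
    (hk : 2 * k ≤ m * n) :
    specMult (m * n) k n m ≤ specMult (p * q) k q p ∧
      specMult (m * n) k m n ≤ specMult (p * q) k p q :=
  Helper87.FK.two_row_chains m n p q k hm h hp hq hd hk

end Pool.Agent.Results.MP_e7aee3_al.TwoRowChains
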